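import Pool.Agent.Helper44.TOT.Defs

/-! TOT project, piece W6x: windows with small log-mass of the primes with `gg > α + κ` -/

set_option autoImplicit false

namespace Pool.Agent.Helper18.TOT

open Pool.Agent.Helper44.TOT

theorem ex_rpow_ge (c : ℝ) (hc : 0 < c) (B : ℝ) : ∃ X : ℕ, ∀ x : ℕ, X ≤ x → B ≤ (x : ℝ) ^ c := by
  have := ((tendsto_rpow_atTop hc).comp tendsto_natCast_atTop_atTop).eventually_ge_atTop B
  exact Filter.eventually_atTop.1 this

theorem blk_set (P : ℕ → Prop) (y : ℕ) : ∃ S : Finset ℕ, blk P y = S.card ∧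
    ∀ q, q ∈ S ↔ (y / 2 < q ∧ q ≤ y) ∧ q.Prime ∧ P q :=
  ⟨_, rfl, fun q => by simp⟩

theorem w2 (h1 : ClaimL) (h2 : W1) (h3 : U3) : W2 := by
  classical
  obtain ⟨θ0, hθ0, hL⟩ := h1
  obtain ⟨C, X3, hC, hU⟩ := h3
  intro α κ ε τ hα hκ hκ1 hε hτ hτ1 X
  set J : ℕ := ⌈4 * C / (θ0 * ε)⌉₊ + 1 with hJdef
  have hJ : 0 < J := by omega
  have hJR : (0 : ℝ) < J := by exact_mod_cast hJ
  have hJε : 2 * C / θ0 ≤ J * ε := by
    have h4 : 4 * C / (θ0 * ε) ≤ J := by
      rw [hJdef]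
      push_cast
      exact (Nat.le_ceil _).trans (by linarith)
    rw [div_le_iff₀ (by positivity)] at h4
    rw [div_le_iff₀ hθ0]
    nlinarith [mul_pos hθ0 hε]
  set r : ℝ := τ ^ 2 with hr
  have hr0 : 0 < r := by positivity
  have hr1 : r < 1 := by
    rw [hr]
    nlinarith
  set w : ℕ → ℝ := fun j => r ^ j / 40 with hw
  have hw0 : ∀ j, 0 < w j := fun j => by positivity
  have hwle : ∀ j k, j ≤ k → w k ≤ w j := fun j k hjk =>
    div_le_div_of_nonneg_right (pow_le_pow_of_le_one hr0.le hr1.le hjk) (by norm_num)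
  have hw40 : ∀ j, w j ≤ 1 / 40 := fun j =>
    div_le_div_of_nonneg_right (pow_le_one₀ hr0.le hr1.le) (by norm_num)
  set η : ℝ := κ * r ^ J / 200 with hη
  have hη0 : 0 < η := by positivity
  have hηw : 5 * η / κ = w J := by
    rw [hη, hw]
    field_simp
    norm_num
  obtain ⟨X1, hX1⟩ := h2 α κ η (θ0 / 2) hα hκ hκ1 hη0 (by rw [hηw]; exact hw40 J) (half_pos hθ0)
  obtain ⟨X4, hX4⟩ := ex_rpow_ge (w J) (hw0 J) (max (X + 1) 3)
  obtain ⟨X5, hX5⟩ := ex_rpow_ge ((1 - τ) * w J) (mul_pos (by linarith) (hw0 J)) 2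
  have hL' := hL α (α + η) hα (by linarith)
  push Not at hL'
  obtain ⟨x, hx, hblk⟩ := hL' (max (max X1 X3) (max (max X4 X5) 3))
  have hxX1 : X1 ≤ x := (le_max_left _ _).trans ((le_max_left _ _).trans hx)
  have hxX3 : X3 ≤ x := (le_max_right _ _).trans ((le_max_left _ _).trans hx)
  have hx2 := (le_max_right _ _).trans hx
  have hxX4 : X4 ≤ x := (le_max_left _ _).trans ((le_max_left _ _).trans hx2)
  have hxX5 : X5 ≤ x := (le_max_right _ _).trans ((le_max_left _ _).trans hx2)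
  have hx3 : 3 ≤ x := (le_max_right _ _).trans hx2
  have hxR : (3 : ℝ) ≤ x := by exact_mod_cast hx3
  have hx1 : (1 : ℝ) < x := by linarith
  have hlog : 0 < Real.log x := Real.log_pos hx1
  have hxl : 0 < (x : ℝ) / Real.log x := by positivity
  have h4 := hX4 x hxX4
  have h5 := hX5 x hxX5
  obtain ⟨S0, hS0, hS0m⟩ := blk_set (fun q => gg q < α + η) x
  rw [hS0] at hblk
  -- primes with a large factor in `N`
  set S1 := S0.filter (fun p => ∃ q : ℕ, q.Prime ∧ q ∣ p - 1 ∧ α + κ < gg q ∧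
    (x : ℝ) ^ (5 * η / κ) < q) with hS1
  set S2 := S0.filter (fun p => ¬ ∃ q : ℕ, q.Prime ∧ q ∣ p - 1 ∧ α + κ < gg q ∧
    (x : ℝ) ^ (5 * η / κ) < q) with hS2
  have hcard : S1.card + S2.card = S0.card := Finset.card_filter_add_card_filter_not _
  have hc1 : (S1.card : ℝ) ≤ θ0 / 2 * (x / Real.log x) := by
    apply hX1 x S1 hxX1
    intro p hp
    rw [hS1, Finset.mem_filter, hS0m] at hp
    exact ⟨hp.1.2.1, hp.1.1.1, hp.1.1.2, hp.1.2.2, hp.2⟩
  set N : Finset ℕ := (Finset.Icc 1 x).filter (fun l => l.Prime ∧ (x : ℝ) ^ (w J) < l ∧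
    (l : ℝ) ≤ (x : ℝ) ^ (w 0) ∧ α + κ < gg l) with hN
  have hw00 : w 0 = 1 / 40 := by rw [hw]; norm_num
  have hc2 : (S2.card : ℝ) * (1 + ∑ l ∈ N, (1 : ℝ) / l) ≤ C * (x / Real.log x) := by
    apply hU x N S2 hxX3
    · intro l hl
      rw [hN, Finset.mem_filter] at hl
      refine ⟨hl.2.1, ?_, ?_⟩
      · have h6 : (3 : ℝ) < l := ((le_max_right _ _).trans h4).trans_lt hl.2.2.1
        have h7 : 3 < l := by exact_mod_cast h6
        exact h7.le
      · rw [← hw00]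
        exact hl.2.2.2.1
    · intro p hp
      rw [hS2, Finset.mem_filter, hS0m] at hp
      refine ⟨hp.1.2.1, hp.1.1.1, hp.1.1.2, fun l hl hdvd => hp.2 ⟨l, ?_⟩⟩
      rw [hN, Finset.mem_filter] at hl
      refine ⟨hl.2.1, hdvd, hl.2.2.2.2, ?_⟩
      rw [hηw]
      exact hl.2.2.1
  have hSN0 : 0 ≤ ∑ l ∈ N, (1 : ℝ) / l := Finset.sum_nonneg fun l _ => by positivity
  have hSN : ∑ l ∈ N, (1 : ℝ) / l ≤ 2 * C / θ0 := by
    have h6 : (S1.card : ℝ) + S2.card = S0.card := by exact_mod_cast hcard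
    have h7 : θ0 / 2 * (x / Real.log x) ≤ S2.card := by linarith
    have h8 : θ0 / 2 * (x / Real.log x) * (1 + ∑ l ∈ N, (1 : ℝ) / l) ≤ C * (x / Real.log x) :=
      (mul_le_mul_of_nonneg_right h7 (by linarith)).trans hc2
    have h9 : θ0 / 2 * (1 + ∑ l ∈ N, (1 : ℝ) / l) ≤ C := by
      apply le_of_mul_le_mul_right _ hxl
      linarith
    rw [le_div_iff₀ hθ0]
    linarith
  -- pigeonhole
  set W : ℕ → Finset ℕ := fun j => N.filter (fun l => (x : ℝ) ^ (w (j + 1)) < l ∧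
    (l : ℝ) ≤ (x : ℝ) ^ (w j)) with hW
  have hdisj : ∀ i ∈ Finset.range J, ∀ j ∈ Finset.range J, i ≠ j → Disjoint (W i) (W j) := by
    intro i _ j _ hij
    rw [Finset.disjoint_left]
    intro l hli hlj
    rw [hW, Finset.mem_filter] at hli hlj
    rcases lt_or_gt_of_ne hij with h | h
    · have h6 := Real.rpow_le_rpow_of_exponent_le hx1.le (hwle (i + 1) j h)
      linarith [hli.2.1, hlj.2.2]
    · have h6 := Real.rpow_le_rpow_of_exponent_le hx1.le (hwle (j + 1) i h)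
      linarith [hlj.2.1, hli.2.2]
  have hsumW : ∑ j ∈ Finset.range J, ∑ l ∈ W j, (1 : ℝ) / l ≤ ∑ l ∈ N, (1 : ℝ) / l := by
    rw [← Finset.sum_biUnion hdisj]
    apply Finset.sum_le_sum_of_subset_of_nonneg
    · intro l hl
      rw [Finset.mem_biUnion] at hl
      obtain ⟨j, _, hl⟩ := hl
      exact Finset.mem_of_mem_filter _ hl
    · intro l _ _
      positivity
  obtain ⟨j, hj, hjε⟩ : ∃ j ∈ Finset.range J, ∑ l ∈ W j, (1 : ℝ) / l ≤ ε := by
    by_contra hcon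
    push Not at hcon
    have h6 : ∑ j ∈ Finset.range J, ε < ∑ j ∈ Finset.range J, ∑ l ∈ W j, (1 : ℝ) / l :=
      Finset.sum_lt_sum_of_nonempty ⟨0, Finset.mem_range.2 hJ⟩ hcon
    rw [Finset.sum_const, Finset.card_range, nsmul_eq_mul] at h6
    linarith
  have hjJ : j < J := Finset.mem_range.1 hj
  set Y : ℕ := ⌊(x : ℝ) ^ (w j)⌋₊ with hY
  have hYle : (Y : ℝ) ≤ (x : ℝ) ^ (w j) := Nat.floor_le (by positivity)
  have hYge : (x : ℝ) ^ (w j) < Y + 1 := Nat.lt_floor_add_one _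
  have hmono : (x : ℝ) ^ (w J) ≤ (x : ℝ) ^ (w j) :=
    Real.rpow_le_rpow_of_exponent_le hx1.le (hwle j J hjJ.le)
  have h6 : (X : ℝ) + 1 ≤ (x : ℝ) ^ (w J) := (le_max_left _ _).trans h4
  have h7 : (3 : ℝ) ≤ (x : ℝ) ^ (w J) := (le_max_right _ _).trans h4
  refine ⟨Y, ?_, fun S hS => ?_⟩
  · have : (X : ℝ) < Y + 1 := by linarith
    have h8 : X < Y + 1 := by exact_mod_cast this
    omega
  · refine le_trans (Finset.sum_le_sum_of_subset_of_nonneg ?_ fun l _ _ => by positivity) hjε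
    intro l hl
    obtain ⟨hlp, hl1, hl2, hl3⟩ := hS l hl
    have hl2' : (l : ℝ) ≤ Y := by exact_mod_cast hl2
    have hlow : (x : ℝ) ^ (w (j + 1)) ≤ (Y : ℝ) ^ τ := by
      have h8 : (x : ℝ) ^ (τ * w j) ≤ Y := by
        have h9 : (2 : ℝ) ≤ (x : ℝ) ^ ((1 - τ) * w j) :=
          h5.trans (Real.rpow_le_rpow_of_exponent_le hx1.le
            (mul_le_mul_of_nonneg_left (hwle j J hjJ.le) (by linarith)))
        have h10 : (x : ℝ) ^ (w j) = (x : ℝ) ^ (τ * w j) * (x : ℝ) ^ ((1 - τ) * w j) := by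
          rw [← Real.rpow_add (by linarith)]
          congr 1
          ring
        have h11 : 0 < (x : ℝ) ^ (τ * w j) := by positivity
        have h12 : (x : ℝ) ^ (τ * w j) * 2 ≤ (x : ℝ) ^ (w j) := by
          rw [h10]
          exact mul_le_mul_of_nonneg_left h9 h11.le
        have h13 : (1 : ℝ) ≤ (x : ℝ) ^ (τ * w j) :=
          Real.one_le_rpow hx1.le (mul_nonneg hτ.le (hw0 j).le)
        linarith
      have h9 := Real.rpow_le_rpow (by positivity) h8 hτ.le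
      rw [← Real.rpow_mul (by positivity)] at h9
      have h10 : τ * w j * τ = w (j + 1) := by
        rw [hw]
        simp only
        rw [pow_succ, hr]
        ring
      rw [h10] at h9
      exact h9
    have hlx : l ≤ x := by
      have h8 : (l : ℝ) ≤ x := by
        have h9 : (x : ℝ) ^ (w j) ≤ (x : ℝ) ^ (1 : ℝ) :=
          Real.rpow_le_rpow_of_exponent_le hx1.le ((hw40 j).trans (by norm_num))
        rw [Real.rpow_one] at h9
        linarith
      exact_mod_cast h8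
    rw [hW, Finset.mem_filter, hN, Finset.mem_filter, Finset.mem_Icc]
    refine ⟨⟨⟨hlp.one_lt.le, hlx⟩, hlp, ?_, ?_, hl3⟩, ?_, ?_⟩
    · exact lt_of_le_of_lt ((Real.rpow_le_rpow_of_exponent_le hx1.le (hwle (j + 1) J hjJ)).trans
        hlow) hl1
    · exact (hl2'.trans hYle).trans (Real.rpow_le_rpow_of_exponent_le hx1.le (hwle 0 j (by omega)))
    · exact lt_of_le_of_lt hlow hl1
    · exact hl2'.trans hYle

end Pool.Agent.Helper18.TOT
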