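import Pool.Agent.Helper44.TOT.Defs

/-! TOT project, piece W7x: windows -/

set_option autoImplicit false

namespace Pool.Agent.Helper18.TOT.WWpiece

open Pool.Agent.Helper44.TOT

theorem ex_rpow_ge (c : ℝ) (hc : 0 < c) (B : ℝ) : ∃ X : ℕ, ∀ x : ℕ, X ≤ x → B ≤ (x : ℝ) ^ c := by
  have := ((tendsto_rpow_atTop hc).comp tendsto_natCast_atTop_atTop).eventually_ge_atTop B
  exact Filter.eventually_atTop.1 this

theorem blk_set (P : ℕ → Prop) (y : ℕ) : ∃ S : Finset ℕ, blk P y = S.card ∧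
    ∀ q, q ∈ S ↔ (y / 2 < q ∧ q ≤ y) ∧ q.Prime ∧ P q :=
  ⟨_, rfl, fun q => by simp⟩

/-- a prime with `gg p > t + 3 κ` has many prime factors with `gg > t` below `p` -/
theorem many (h3 : GGavg) (t κ : ℝ) (ht : 0 ≤ t) (p y : ℕ) (hp : p.Prime)
    (h5 : 5 ≤ p) (hpy : p ≤ y) (hgg : t + 3 * κ ≤ gg p) (N : Finset ℕ)
    (hN : ∀ q : ℕ, q.Prime → q ≤ y → t < gg q → q ∈ N) :
    2 * κ * Real.log p ≤ wset N (p - 1) := by
  classical
  have h6 := h3.2.2.1 t 1 ht one_pos p hp h5
  have hlog : 0 ≤ Real.log p := Real.log_natCast_nonneg p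
  have h7 : wsum (fun q => max 0 (gg q - t) / 1) (p - 1) ≤ 3 / 2 * wset N (p - 1) := by
    unfold wsum wset
    rw [Finset.mul_sum, ← Finset.sum_ite_mem]
    apply Finset.sum_le_sum
    intro q hq
    have hqp := Nat.prime_of_mem_primeFactors hq
    have hlq : 0 ≤ Real.log q := Real.log_natCast_nonneg q
    have h8 : 0 ≤ ((p - 1).factorization q : ℝ) * Real.log q := by positivity
    have hqy : q ≤ y := by
      have := Nat.le_of_mem_primeFactors hq
      omega
    simp only [div_one]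
    split_ifs with hqN
    · have h9 := h3.2.1 q hqp.two_le
      have h10 : max 0 (gg q - t) ≤ 3 / 2 := max_le (by norm_num) (by linarith)
      calc _ ≤ ((p - 1).factorization q : ℝ) * Real.log q * (3 / 2) :=
            mul_le_mul_of_nonneg_left h10 h8
        _ = _ := by ring
    · have h9 : gg q ≤ t := by
        by_contra hcon
        exact hqN (hN q hqp hqy (lt_of_not_ge hcon))
      rw [max_eq_left (by linarith), mul_zero]
  have h8 : 3 * κ * Real.log p ≤ max 0 (gg p - t) / 1 * Real.log p := by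
    rw [div_one]
    exact mul_le_mul_of_nonneg_right (le_trans (by linarith) (le_max_right _ _)) hlog
  linarith

theorem wW (h1 : FM) (h2 : W2) (h3 : GGavg) : WW := by
  classical
  obtain ⟨C, hC, hFM⟩ := h1
  intro α t1 θ τ hα ht1 hθ hτ hτ1 X
  have hC0 : 0 < C := by linarith
  set κ : ℝ := min 1 ((t1 - α) / 4) with hκdef
  have hκ : 0 < κ := lt_min one_pos (by linarith)
  have hκ1 : κ ≤ 1 := min_le_left _ _
  have hκ4 : 4 * κ ≤ t1 - α := by
    have := min_le_right 1 ((t1 - α) / 4)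
    linarith
  set A : ℝ := θ * κ / (3 * C) with hA
  have hA0 : 0 < A := by positivity
  set v1 : ℝ := min (1 / 4) A with hv1def
  have hv1 : 0 < v1 := lt_min (by norm_num) hA0
  have hv14 : v1 ≤ 1 / 4 := min_le_left _ _
  have hv1A : v1 ≤ A := min_le_right _ _
  set τ2 : ℝ := min (τ / 2) (τ * A) with hτ2def
  have hτ2 : 0 < τ2 := lt_min (by linarith) (by positivity)
  have hτ2a : τ2 ≤ τ / 2 := min_le_left _ _
  have hτ2b : τ2 ≤ τ * A := min_le_right _ _
  obtain ⟨Y0, hY0⟩ := hFM v1 hv1 hv14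
  obtain ⟨X1, hX1⟩ := ex_rpow_ge τ hτ (max Y0 16)
  obtain ⟨X2, hX2⟩ := ex_rpow_ge τ2 hτ2 2
  obtain ⟨x0, hx0, hW⟩ := h2 α κ (v1 * A) τ2 hα hκ hκ1 (by positivity) hτ2 (by linarith)
    (max (max X 2) (max X1 X2))
  have hxX : X ≤ x0 := (le_max_left _ _).trans ((le_max_left _ _).trans hx0)
  have hx2 : 2 ≤ x0 := (le_max_right _ _).trans ((le_max_left _ _).trans hx0)
  have hxX1 : X1 ≤ x0 := (le_max_left _ _).trans ((le_max_right _ _).trans hx0)
  have hxX2 : X2 ≤ x0 := (le_max_right _ _).trans ((le_max_right _ _).trans hx0)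
  have hx2R : (2 : ℝ) ≤ x0 := by exact_mod_cast hx2
  have hx1R : (1 : ℝ) < x0 := by linarith
  refine ⟨x0, hxX, fun y hy1 hy2 => ?_⟩
  have hyY0 : Y0 ≤ y := by
    have : (Y0 : ℝ) ≤ y := (le_max_left _ _).trans ((hX1 x0 hxX1).trans hy1)
    exact_mod_cast this
  have hy16 : 16 ≤ y := by
    have : (16 : ℝ) ≤ y := (le_max_right _ _).trans ((hX1 x0 hxX1).trans hy1)
    exact_mod_cast this
  have hy16R : (16 : ℝ) ≤ y := by exact_mod_cast hy16
  have hlogy : 0 < Real.log y := Real.log_pos (by linarith)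
  have hlogx : 0 < Real.log x0 := Real.log_pos hx1R
  set N : Finset ℕ := (Finset.Icc 1 y).filter (fun q => q.Prime ∧ α + κ < gg q) with hN
  set w : ℝ := (x0 : ℝ) ^ τ2 with hw
  have hw2 : 2 ≤ w := hX2 x0 hxX2
  have hwy : w ≤ (y : ℝ) ^ ((1 : ℝ) / 2) := by
    calc w ≤ (x0 : ℝ) ^ (τ * (1 / 2)) :=
          Real.rpow_le_rpow_of_exponent_le hx1R.le (by linarith)
      _ = ((x0 : ℝ) ^ τ) ^ ((1 : ℝ) / 2) := Real.rpow_mul (by positivity) _ _
      _ ≤ _ := Real.rpow_le_rpow (by positivity) hy1 (by norm_num)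
  have hfm := hY0 y N w hyY0 hw2 hwy (fun q hq => by
    rw [hN, Finset.mem_filter] at hq
    exact hq.2.1)
  -- the window sum
  have hwin : ∑ q ∈ N, (if w < (q : ℝ) ∧ q ≤ y then Real.log q / q else 0) ≤
      Real.log y * (v1 * A) := by
    rw [← Finset.sum_filter]
    have h4 := hW (N.filter (fun q : ℕ => w < (q : ℝ) ∧ q ≤ y)) (fun l hl => by
      rw [Finset.mem_filter, hN, Finset.mem_filter] at hl
      exact ⟨hl.1.2.1, hl.2.1, hl.2.2.trans hy2, hl.1.2.2⟩)
    refine le_trans (Finset.sum_le_sum fun q hq => ?_) ((Finset.mul_sum _ _ _).symm.le.trans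
      (mul_le_mul_of_nonneg_left h4 hlogy.le))
    rw [Finset.mem_filter, hN, Finset.mem_filter] at hq
    have hq0 : (0 : ℝ) < q := by exact_mod_cast hq.1.2.1.pos
    have h5 : Real.log q ≤ Real.log y := Real.log_le_log hq0 (by exact_mod_cast hq.2.2)
    rw [mul_one_div]
    exact div_le_div_of_nonneg_right h5 hq0.le
  have hlw : Real.log w / Real.log y ≤ A := by
    rw [div_le_iff₀ hlogy, hw, Real.log_rpow (by linarith)]
    have h4 : τ * Real.log x0 ≤ Real.log y := by
      rw [← Real.log_rpow (by linarith)]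
      exact Real.log_le_log (by positivity) hy1
    calc τ2 * Real.log x0 ≤ (τ * A) * Real.log x0 := mul_le_mul_of_nonneg_right hτ2b hlogx.le
      _ = A * (τ * Real.log x0) := by ring
      _ ≤ _ := mul_le_mul_of_nonneg_left h4 hA0.le
  have h4 : 1 / (v1 * Real.log y) * ∑ q ∈ N, (if w < (q : ℝ) ∧ q ≤ y then Real.log q / q else 0) ≤
      A := by
    calc _ ≤ 1 / (v1 * Real.log y) * (Real.log y * (v1 * A)) :=
          mul_le_mul_of_nonneg_left hwin (by positivity)
      _ = A := by field_simp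
  have h5 : ∑ p ∈ (Finset.Ioc (y / 2) y).filter Nat.Prime, wset N (p - 1) ≤ C * y * (3 * A) := by
    refine hfm.trans (mul_le_mul_of_nonneg_left ?_ (by positivity))
    linarith
  -- the lower bound
  obtain ⟨S, hS, hSm⟩ := blk_set (fun q => t1 < gg q) y
  rw [hS]
  have hwset0 : ∀ n, 0 ≤ wset N n := fun n =>
    Finset.sum_nonneg fun q _ => mul_nonneg (Nat.cast_nonneg _) (Real.log_natCast_nonneg q)
  have h6 : (S.card : ℝ) * (κ * Real.log y) ≤ ∑ p ∈ (Finset.Ioc (y / 2) y).filter Nat.Prime,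
      wset N (p - 1) := by
    have h7 : S ⊆ (Finset.Ioc (y / 2) y).filter Nat.Prime := by
      intro q hq
      rw [hSm] at hq
      rw [Finset.mem_filter, Finset.mem_Ioc]
      exact ⟨hq.1, hq.2.1⟩
    refine le_trans ?_ (Finset.sum_le_sum_of_subset_of_nonneg h7 fun p _ _ => hwset0 _)
    rw [← nsmul_eq_mul]
    apply Finset.card_nsmul_le_sum
    intro p hp
    rw [hSm] at hp
    have hp5 : 5 ≤ p := by
      have := hp.1.1
      omega
    have h8 := many h3 (α + κ) κ (by have := hα.nonneg; linarith) p y hp.2.1 hp5 hp.1.2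
      (by have := hp.2.2; linarith) N (fun q hq1 hq2 hq3 => by
        rw [hN, Finset.mem_filter, Finset.mem_Icc]
        exact ⟨⟨hq1.one_lt.le, hq2⟩, hq1, hq3⟩)
    have h9 : Real.log y ≤ 2 * Real.log p := by
      have h10 : y < p * 2 := by
        have := hp.1.1
        omega
      have h11 : (y : ℝ) ≤ p * 2 := by exact_mod_cast h10.le
      have h12 : (2 : ℝ) ≤ p := by exact_mod_cast hp.2.1.two_le
      have h13 : (y : ℝ) ≤ p ^ 2 := by nlinarith
      calc Real.log y ≤ Real.log ((p : ℝ) ^ 2) := Real.log_le_log (by linarith) h13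
        _ = 2 * Real.log p := by rw [Real.log_pow]; norm_num
    have := mul_le_mul_of_nonneg_left h9 hκ.le
    linarith
  have h7 : (S.card : ℝ) * (κ * Real.log y) ≤ κ * (θ * y) := by
    refine (h6.trans h5).trans (le_of_eq ?_)
    rw [hA]
    field_simp
  have h8 : (S.card : ℝ) * Real.log y ≤ θ * y := by
    apply le_of_mul_le_mul_left _ hκ
    linarith
  rw [← mul_div_assoc, le_div_iff₀ hlogy]
  exact h8

end Pool.Agent.Helper18.TOT.WWpiece

namespace Pool.Agent.Helper18.TOT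

open Pool.Agent.Helper44.TOT

theorem ww (h1 : FM) (h2 : W2) (h3 : GGavg) : WW := WWpiece.wW h1 h2 h3

end Pool.Agent.Helper18.TOT
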